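import Mathlib

/-!
A finite nilpotent loop (of order 72) whose laws have no finite basis: generic part.
-/

set_option autoImplicit false

open FirstOrder

namespace Pool.Agent.H659Loop

/-- the signature of the frozen statement -/
abbrev Lg : Language :=
  FirstOrder.Language.mk (fun n => Fin (if n = 0 then 1 else if n = 2 then 3 else 0))
    (fun _ => Empty)

/-- three binary operations and a constant -/
structure Ops (Q : Type) where
  mul : Q → Q → Q
  ld : Q → Q → Q
  rd : Q → Q → Q
  e : Q

namespace Ops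

variable {Q : Type}

/-- the three binary operations, indexed by `Fin 3` -/
def op (o : Ops Q) (g : Fin 3) (x y : Q) : Q :=
  match g with
  | 0 => o.mul x y
  | 1 => o.ld x y
  | 2 => o.rd x y

/-- the first-order structure given by the operations -/
@[reducible] def str (o : Ops Q) : Lg.Structure Q where
  funMap := fun {n} g v =>
    match n, g, v with
    | 0, _, _ => o.e
    | 2, g, v => o.op g (v 0) (v 1)
    | _, _, _ => o.e
  RelMap := fun r => Empty.elim r

/-- evaluation of a term -/
def eval (o : Ops Q) (t : Lg.Term ℕ) (v : ℕ → Q) : Q :=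
  @Language.Term.realize Lg Q o.str ℕ v t

theorem eval_var (o : Ops Q) (n : ℕ) (v : ℕ → Q) :
    o.eval (Language.Term.var n) v = v n := rfl

theorem eval_zero (o : Ops Q) (g : Lg.Functions 0) (ts : Fin 0 → Lg.Term ℕ) (v : ℕ → Q) :
    o.eval (Language.Term.func g ts) v = o.e := rfl

theorem eval_two (o : Ops Q) (g : Lg.Functions 2) (ts : Fin 2 → Lg.Term ℕ) (v : ℕ → Q) :
    o.eval (Language.Term.func g ts) v = o.op g (o.eval (ts 0) v) (o.eval (ts 1) v) := rfl

end Ops

/-- the induction principle for terms -/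
theorem term_ind {P : Lg.Term ℕ → Prop} (hv : ∀ n, P (Language.Term.var n))
    (h0 : ∀ (g : Lg.Functions 0) (ts : Fin 0 → Lg.Term ℕ), P (Language.Term.func g ts))
    (h2 : ∀ (g : Lg.Functions 2) (ts : Fin 2 → Lg.Term ℕ), P (ts 0) → P (ts 1) →
      P (Language.Term.func g ts)) : ∀ t, P t := by
  intro t
  induction t with
  | var n => exact hv n
  | @func l g ts ih =>
    match l, g, ts, ih with
    | 0, g, ts, _ => exact h0 g ts
    | 1, g, _, _ => exact Fin.elim0 (show Fin 0 from g)
    | 2, g, ts, ih => exact h2 g ts (ih 0) (ih 1)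
    | (n + 3), g, _, _ =>
      have hE : Lg.Functions (n + 3) = Fin 0 := by
        change Fin (if n + 3 = 0 then 1 else if n + 3 = 2 then 3 else 0) = Fin 0
        have hh : (if n + 3 = 0 then 1 else if n + 3 = 2 then 3 else 0) = 0 := by
          simp
        rw [hh]
      exact Fin.elim0 (cast hE g)

/-- a bound for the variables of a term -/
def vb : Lg.Term ℕ → ℕ
  | .var n => n + 1
  | .func _ ts => Finset.univ.sup (fun i => vb (ts i))

theorem eval_congr {Q : Type} (o : Ops Q) (v v' : ℕ → Q) :
    ∀ t : Lg.Term ℕ, (∀ j < vb t, v j = v' j) → o.eval t v = o.eval t v' := by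
  refine term_ind ?_ ?_ ?_
  · intro n h
    exact h n (Nat.lt_succ_self n)
  · intro g ts _
    rfl
  · intro g ts ih0 ih1 h
    have hle : ∀ i : Fin 2, vb (ts i) ≤ vb (Language.Term.func g ts) := by
      intro i
      rw [vb]
      exact Finset.le_sup (f := fun i => vb (ts i)) (Finset.mem_univ i)
    rw [Ops.eval_two, Ops.eval_two,
      ih0 (fun j hj => h j (lt_of_lt_of_le hj (hle 0))),
      ih1 (fun j hj => h j (lt_of_lt_of_le hj (hle 1)))]

/-- homomorphisms commute with evaluation -/
theorem eval_hom {Q R : Type} (o : Ops Q) (p : Ops R) (φ : Q → R) (he : φ o.e = p.e)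
    (hop : ∀ g x y, φ (o.op g x y) = p.op g (φ x) (φ y)) (v : ℕ → Q) :
    ∀ t : Lg.Term ℕ, φ (o.eval t v) = p.eval t (fun j => φ (v j)) := by
  refine term_ind ?_ ?_ ?_
  · intro n; rfl
  · intro g ts; exact he
  · intro g ts ih0 ih1
    rw [Ops.eval_two, Ops.eval_two, hop, ih0, ih1]

/-- the top of one copy -/
abbrev A : Type := ZMod 2 × ZMod 2
/-- the middle layer -/
abbrev K : Type := ZMod 3
/-- the centre -/
abbrev C : Type := ZMod 2

/-- bits as elements of `ZMod 3` -/
def bit (a : ZMod 2) : K := if a = 0 then 0 else 1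

/-- the first cocycle -/
def f (a b : A) : K := bit a.1 * bit b.2

/-- the second cocycle -/
def h (k l : K) : C := if k = 2 ∧ l = 1 then 1 else 0

theorem bit_zero : bit 0 = 0 := by decide
theorem f_zero_left (b : A) : f 0 b = 0 := by simp [f, bit]
theorem f_zero_right (a : A) : f a 0 = 0 := by simp [f, bit]
theorem h_zero_left (k : K) : h 0 k = 0 := by revert k; decide
theorem h_zero_right (k : K) : h k 0 = 0 := by revert k; decide

/-- one copy without the centre -/
abbrev B : Type := A × K

/-- the operations of one copy without the centre -/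
def opB : Ops B where
  mul x y := (x.1 + y.1, x.2 + y.2 + f x.1 y.1)
  ld x y := (y.1 - x.1, y.2 - x.2 - f x.1 (y.1 - x.1))
  rd y x := (y.1 - x.1, y.2 - x.2 - f (y.1 - x.1) x.1)
  e := (0, 0)

/-- additive groups as loops -/
def opG (G : Type) [AddCommGroup G] : Ops G where
  mul x y := x + y
  ld x y := y - x
  rd y x := y - x
  e := 0

/-- the central cocycles of the three operations -/
def coc (g : Fin 3) (x y : B) : C :=
  match g with
  | 0 => h x.2 y.2
  | 1 => - h x.2 (opB.ld x y).2
  | 2 => - h (opB.rd x y).2 y.2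

section model

variable {I L : Type} [Fintype I] [AddCommGroup L] (ev : I → L →+ A)

/-- the quotient by the centre -/
abbrev X (I L : Type) : Type := L × (I → K)

/-- operations of the quotient by the centre -/
def opX : Ops (X I L) where
  mul x y := (x.1 + y.1, fun i => x.2 i + y.2 i + f (ev i x.1) (ev i y.1))
  ld x y := (y.1 - x.1, fun i => y.2 i - x.2 i - f (ev i x.1) (ev i (y.1 - x.1)))
  rd y x := (y.1 - x.1, fun i => y.2 i - x.2 i - f (ev i (y.1 - x.1)) (ev i x.1))
  e := (0, 0)

/-- the projection to the `i`-th copy -/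
def pr (i : I) (x : X I L) : B := (ev i x.1, x.2 i)

/-- the loops -/
abbrev E (I L : Type) : Type := X I L × C

/-- operations of the loop -/
def opE : Ops (E I L) where
  mul x y := ((opX ev).mul x.1 y.1, x.2 + y.2 + ∑ i, coc 0 (pr ev i x.1) (pr ev i y.1))
  ld x y := ((opX ev).ld x.1 y.1, y.2 - x.2 + ∑ i, coc 1 (pr ev i x.1) (pr ev i y.1))
  rd y x := ((opX ev).rd y.1 x.1, y.2 - x.2 + ∑ i, coc 2 (pr ev i y.1) (pr ev i x.1))
  e := ((0, 0), 0)

theorem pr_hom (i : I) (g : Fin 3) (x y : X I L) :
    pr ev i ((opX ev).op g x y) = opB.op g (pr ev i x) (pr ev i y) := by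
  fin_cases g
  · simp [Ops.op, opX, opB, pr]
  · simp [Ops.op, opX, opB, pr]
  · simp [Ops.op, opX, opB, pr]

theorem fst_hom (g : Fin 3) (x y : X I L) :
    ((opX ev).op g x y).1 = (opG L).op g x.1 y.1 := by
  fin_cases g <;> rfl

theorem opE_fst (g : Fin 3) (x y : E I L) :
    ((opE ev).op g x y).1 = (opX ev).op g x.1 y.1 := by
  fin_cases g <;> rfl

theorem opE_snd (g : Fin 3) (x y : E I L) :
    ((opE ev).op g x y).2 = (opG C).op g x.2 y.2 + ∑ i, coc g (pr ev i x.1) (pr ev i y.1) := by
  fin_cases g <;> rfl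

theorem opG_lin {G : Type} [AddCommGroup G] (g : Fin 3) (x x' y y' : G) :
    (opG G).op g (x + x') (y + y') = (opG G).op g x y + (opG G).op g x' y' := by
  fin_cases g
  · change x + x' + (y + y') = x + y + (x' + y'); abel
  · change y + y' - (x + x') = y - x + (y' - x'); abel
  · change x + x' - (y + y') = x - y + (x' - y'); abel

theorem opG_sum {G : Type} [AddCommGroup G] (g : Fin 3) (x y : I → G) :
    (opG G).op g (∑ i, x i) (∑ i, y i) = ∑ i, (opG G).op g (x i) (y i) := by
  fin_cases g
  · exact (Finset.sum_add_distrib).symm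
  · exact (Finset.sum_sub_distrib (f := y) (g := x)).symm
  · exact (Finset.sum_sub_distrib (f := x) (g := y)).symm

end model

/-- one copy with the centre -/
def opB' : Ops (B × C) where
  mul x y := (opB.mul x.1 y.1, x.2 + y.2 + coc 0 x.1 y.1)
  ld x y := (opB.ld x.1 y.1, y.2 - x.2 + coc 1 x.1 y.1)
  rd y x := (opB.rd y.1 x.1, y.2 - x.2 + coc 2 y.1 x.1)
  e := ((0, 0), 0)

theorem opB'_fst (g : Fin 3) (x y : B × C) :
    (opB'.op g x y).1 = opB.op g x.1 y.1 := by
  fin_cases g <;> rfl

theorem opB'_snd (g : Fin 3) (x y : B × C) :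
    (opB'.op g x y).2 = (opG C).op g x.2 y.2 + coc g x.1 y.1 := by
  fin_cases g <;> rfl

/-- the central term function of one copy -/
def gam (t : Lg.Term ℕ) (b : ℕ → B) : C := (opB'.eval t (fun j => (b j, 0))).2

theorem evalB'_fst (t : Lg.Term ℕ) (b : ℕ → B) :
    (opB'.eval t (fun j => (b j, 0))).1 = opB.eval t b :=
  eval_hom opB' opB Prod.fst rfl opB'_fst _ t

theorem gam_two (g : Lg.Functions 2) (ts : Fin 2 → Lg.Term ℕ) (b : ℕ → B) :
    gam (Language.Term.func g ts) b =
      (opG C).op g (gam (ts 0) b) (gam (ts 1) b) +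
        coc g (opB.eval (ts 0) b) (opB.eval (ts 1) b) := by
  unfold gam
  rw [Ops.eval_two, opB'_snd, evalB'_fst, evalB'_fst]

section model

variable {I L : Type} [Fintype I] [AddCommGroup L] (ev : I → L →+ A)

theorem evalX_fst (t : Lg.Term ℕ) (x : ℕ → X I L) :
    ((opX ev).eval t x).1 = (opG L).eval t (fun j => (x j).1) :=
  eval_hom (opX ev) (opG L) Prod.fst rfl (fst_hom ev) _ t

theorem evalX_pr (i : I) (t : Lg.Term ℕ) (x : ℕ → X I L) :
    pr ev i ((opX ev).eval t x) = opB.eval t (fun j => pr ev i (x j)) :=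
  eval_hom (opX ev) opB (pr ev i) (by simp [pr, opX, opB]) (pr_hom ev i) _ t

theorem evalE_fst (t : Lg.Term ℕ) (x : ℕ → E I L) :
    ((opE ev).eval t x).1 = (opX ev).eval t (fun j => (x j).1) :=
  eval_hom (opE ev) (opX ev) Prod.fst rfl (opE_fst ev) _ t

theorem evalE_snd (x : ℕ → E I L) : ∀ t : Lg.Term ℕ,
    ((opE ev).eval t x).2 = (opG C).eval t (fun j => (x j).2) +
      ∑ i, gam t (fun j => pr ev i (x j).1) := by
  refine term_ind ?_ ?_ ?_
  · intro n
    have : ∀ i, gam (Language.Term.var n) (fun j => pr ev i (x j).1) = 0 := fun i => rfl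
    simp only [this, Finset.sum_const_zero, add_zero]
    rfl
  · intro g ts
    have : ∀ i, gam (Language.Term.func g ts) (fun j => pr ev i (x j).1) = 0 := fun i => rfl
    simp only [this, Finset.sum_const_zero, add_zero]
    rfl
  · intro g ts ih0 ih1
    rw [Ops.eval_two, opE_snd, ih0, ih1, opG_lin, opG_sum, Ops.eval_two, add_assoc,
      ← Finset.sum_add_distrib]
    congr 1
    apply Finset.sum_congr rfl
    intro i _
    rw [gam_two, evalE_fst, evalE_fst, evalX_pr, evalX_pr]

end model

end Pool.Agent.H659Loop
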