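import Pool.Agent.H659Loop.Transfer

/-!
The laws `(ww)w = w(ww)` hold in the loop of order 72 and fail in the models; the loop axioms and
nilpotency.
-/

set_option autoImplicit false

open FirstOrder

namespace Pool.Agent.H659Loop

/-! ### The laws hold in `Q` -/

theorem ww_Q : ∀ (n : ℕ) (y : Lg.Term ℕ) (x : ℕ → X (Fin 2) A),
    ((opX evQ).eval (ww n y) x).1 = 0 ∧
      ((opX evQ).eval (ww n y) x).2 0 = ((opX evQ).eval (ww n y) x).2 1 := by
  intro n
  induction n with
  | zero =>
    intro y x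
    have e : ∀ u v : X (Fin 2) A,
        ((opX evQ).rd ((opX evQ).mul u v) ((opX evQ).mul v u)).1 = 0 ∧
        ((opX evQ).rd ((opX evQ).mul u v) ((opX evQ).mul v u)).2 0 =
          ((opX evQ).rd ((opX evQ).mul u v) ((opX evQ).mul v u)).2 1 := by
      intro u v
      have h0 : u.1 + v.1 - (v.1 + u.1) = 0 := by rw [add_comm]; exact sub_self _
      constructor
      · exact h0
      · simp only [opX, evQ, AddMonoidHom.id_apply, h0]
        ring
    exact e _ _
  | succ n ih =>
    intro y x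
    have e : ∀ u v w : X (Fin 2) A, (u.1 = 0 ∧ u.2 0 = u.2 1) → (v.1 = 0 ∧ v.2 0 = v.2 1) →
        (w.1 = 0 ∧ w.2 0 = w.2 1) →
        ((opX evQ).rd ((opX evQ).mul u v) w).1 = 0 ∧
        ((opX evQ).rd ((opX evQ).mul u v) w).2 0 =
          ((opX evQ).rd ((opX evQ).mul u v) w).2 1 := by
      rintro u v w ⟨hu, hu'⟩ ⟨hv, hv'⟩ ⟨hw, hw'⟩
      constructor
      · simp [opX, hu, hv, hw]
      · simp only [opX, evQ, AddMonoidHom.id_apply, hu, hv, hw, hu', hv', hw']
    exact e _ _ _ (ih _ x) (ih _ x) (ih _ x)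

theorem law_Q (n : ℕ) (x : ℕ → Q) : opQ.eval (lhs n) x = opQ.eval (rhs n) x := by
  unfold lhs rhs
  rw [eval_tm, eval_tm, eval_tm, eval_tm]
  unfold opQ
  have h1 := ww_Q n (Language.Term.var (n + 1)) (fun j => (x j).1)
  rw [← evalE_fst evQ _ x] at h1
  rw [cube evQ _ h1.1, Fin.sum_univ_two, h1.2]
  exact c_add_self _

/-! ### The laws fail in the models -/

/-- the assignment in the model -/
def asg (d : ℕ) : ℕ → X (Fin d → ZMod 2) (LL d)
  | 0 => ((0, 1), 0)
  | j + 1 => ((fun i => if i.val = j then 1 else 0, 0), 0)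

theorem bit_add (a b : ZMod 2) : bit a + bit b - bit (a + b) = 2 * (bit a * bit b) := by
  revert a b; decide

theorem ev_asg (d j : ℕ) (hj : j < d) (i : Fin d → ZMod 2) :
    evM d i (asg d (j + 1)).1 = (i ⟨j, hj⟩, 0) := by
  apply Prod.ext
  · simp only [evM, asg, AddMonoidHom.coe_mk, ZeroHom.coe_mk]
    rw [Finset.sum_eq_single (⟨j, hj⟩ : Fin d)]
    · simp
    · intro b _ hb
      have : ¬ (b.val = j) := fun h => hb (Fin.ext h)
      simp [this]
    · intro h; exact absurd (Finset.mem_univ _) h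
  · rfl

/-- the values of the terms `w_n(y)` in the model -/
theorem ww_M (d : ℕ) : ∀ (n : ℕ) (hn : n ≤ d) (y : Lg.Term ℕ)
    (_ : ((opX (evM d)).eval y (asg d)).1.2 = 0),
    ((opX (evM d)).eval (ww n y) (asg d)).1 = 0 ∧
      ∀ i, ((opX (evM d)).eval (ww n y) (asg d)).2 i =
        2 ^ n * ((∏ j : Fin n, bit (i ⟨j.val, lt_of_lt_of_le j.2 hn⟩)) *
          bit (∑ j, i j * ((opX (evM d)).eval y (asg d)).1.1 j)) := by
  intro n
  induction n with
  | zero =>
    intro hn y hy
    have e : ∀ u : X (Fin d → ZMod 2) (LL d), u.1.2 = 0 →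
        ((opX (evM d)).rd ((opX (evM d)).mul u (asg d 0)) ((opX (evM d)).mul (asg d 0) u)).1 = 0 ∧
        ∀ i, ((opX (evM d)).rd ((opX (evM d)).mul u (asg d 0))
          ((opX (evM d)).mul (asg d 0) u)).2 i = bit (∑ j, i j * u.1.1 j) := by
      intro u hu
      have h0 : u.1 + (asg d 0).1 - ((asg d 0).1 + u.1) = 0 := by rw [add_comm]; exact sub_self _
      constructor
      · exact h0
      · intro i
        simp only [opX, h0, map_zero, f_zero_left]
        have e1 : evM d i u.1 = (∑ j, i j * u.1.1 j, 0) := by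
          apply Prod.ext
          · rfl
          · exact hu
        have e2 : evM d i (asg d 0).1 = (0, 1) := by
          apply Prod.ext
          · simp [evM, asg]
          · rfl
        rw [e1, e2]
        have e3 : f (∑ j, i j * u.1.1 j, 0) (0, 1) = bit (∑ j, i j * u.1.1 j) := by
          have : bit 1 = 1 := by decide
          simp [f, this]
        have e4 : f (0, 1) (∑ j, i j * u.1.1 j, 0) = 0 := by
          simp [f, bit_zero]
        rw [e3, e4]
        ring
    obtain ⟨h1, h2⟩ := e _ hy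
    refine ⟨h1, fun i => ?_⟩
    refine (h2 i).trans ?_
    simp
  | succ n ih =>
    intro hn y hy
    have hnd : n < d := hn
    have hn' : n ≤ d := hnd.le
    have hv : ((opX (evM d)).eval (Language.Term.var (n + 1)) (asg d)).1.2 = 0 := rfl
    have hvy : ((opX (evM d)).eval (tm (Language.Term.var (n + 1)) y) (asg d)).1.2 = 0 := by
      rw [eval_tm]
      change ((opX (evM d)).eval (Language.Term.var (n + 1)) (asg d)).1.2 +
        ((opX (evM d)).eval y (asg d)).1.2 = 0
      rw [hv, hy, add_zero]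
    obtain ⟨a1, a2⟩ := ih hn' (Language.Term.var (n + 1)) hv
    obtain ⟨b1, b2⟩ := ih hn' y hy
    obtain ⟨c1, c2⟩ := ih hn' (tm (Language.Term.var (n + 1)) y) hvy
    have e : ∀ u v w : X (Fin d → ZMod 2) (LL d), u.1 = 0 → v.1 = 0 → w.1 = 0 →
        ((opX (evM d)).rd ((opX (evM d)).mul u v) w).1 = 0 ∧
        ∀ i, ((opX (evM d)).rd ((opX (evM d)).mul u v) w).2 i = u.2 i + v.2 i - w.2 i := by
      intro u v w hu hv hw
      constructor
      · simp [opX, hu, hv, hw]
      · intro i
        simp [opX, hu, hv, hw, f_zero_left]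
    obtain ⟨g1, g2⟩ := e _ _ _ a1 b1 c1
    refine ⟨g1, fun i => ?_⟩
    refine (g2 i).trans ?_
    rw [a2 i, b2 i, c2 i]
    have s1 : ∑ j, i j * ((opX (evM d)).eval (Language.Term.var (n + 1)) (asg d)).1.1 j =
        i ⟨n, hnd⟩ := congrArg Prod.fst (ev_asg d n hnd i)
    have s2 : ∑ j, i j * ((opX (evM d)).eval (tm (Language.Term.var (n + 1)) y) (asg d)).1.1 j =
        i ⟨n, hnd⟩ + ∑ j, i j * ((opX (evM d)).eval y (asg d)).1.1 j := by
      rw [← s1, ← Finset.sum_add_distrib]
      apply Finset.sum_congr rfl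
      intro j _
      rw [eval_tm]
      change i j * (_ + _) = _
      rw [mul_add]
    rw [s1, s2]
    rw [Fin.prod_univ_castSucc]
    simp only [Fin.val_castSucc, Fin.val_last]
    have key := bit_add (i ⟨n, hnd⟩) (∑ j, i j * ((opX (evM d)).eval y (asg d)).1.1 j)
    rw [← mul_add, ← mul_add, ← mul_sub, ← mul_sub, key, pow_succ]
    ring

theorem psi_pow (n : ℕ) (k : K) : psi (2 ^ n * k) = psi k := by
  induction n with
  | zero => simp
  | succ n ih =>
    have h1 : ∀ k : K, psi (2 * k) = psi k := by decide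
    rw [pow_succ, mul_comm (2 ^ n) 2, mul_assoc, h1, ih]

theorem bit_mul_bit (a : ZMod 2) : bit a = 0 ∨ bit a = 1 := by revert a; decide

theorem law_M (n : ℕ) : ¬ ∀ x : ℕ → M (n + 1), (opM (n + 1)).eval (lhs n) x =
    (opM (n + 1)).eval (rhs n) x := by
  intro H
  have h1 := H (fun j => (asg (n + 1) j, 0))
  unfold lhs rhs at h1
  rw [eval_tm, eval_tm, eval_tm, eval_tm] at h1
  unfold opM at h1
  obtain ⟨g1, g2⟩ := ww_M (n + 1) n (Nat.le_succ n) (Language.Term.var (n + 1)) rfl
  have hfst : ((opE (evM (n + 1))).eval (ww n (Language.Term.var (n + 1)))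
      (fun j => (asg (n + 1) j, 0))).1 =
      (opX (evM (n + 1))).eval (ww n (Language.Term.var (n + 1))) (asg (n + 1)) :=
    evalE_fst _ _ _
  rw [cube (evM (n + 1)) _ (by rw [hfst]; exact g1)] at h1
  rw [hfst] at h1
  have h2 : ∀ i : Fin (n + 1) → ZMod 2,
      psi (((opX (evM (n + 1))).eval (ww n (Language.Term.var (n + 1))) (asg (n + 1))).2 i) =
        if i = (fun _ => 1) then 1 else 0 := by
    intro i
    rw [g2 i, psi_pow]
    have s1 : ∑ j, i j *
        ((opX (evM (n + 1))).eval (Language.Term.var (n + 1)) (asg (n + 1))).1.1 j =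
        i ⟨n, Nat.lt_succ_self n⟩ := congrArg Prod.fst (ev_asg (n + 1) n (Nat.lt_succ_self n) i)
    rw [s1]
    by_cases hi : i = fun _ => 1
    · have hb : bit 1 = 1 := by decide
      simp [hi, hb, psi]
    · rw [if_neg hi]
      obtain ⟨j, hj⟩ : ∃ j, i j ≠ 1 := by
        by_contra hc
        push_neg at hc
        exact hi (funext hc)
      have hj0 : bit (i j) = 0 := by
        have : ∀ a : ZMod 2, a ≠ 1 → bit a = 0 := by decide
        exact this _ hj
      by_cases hjn : j.val = n
      · have : j = ⟨n, Nat.lt_succ_self n⟩ := Fin.ext hjn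
        rw [this] at hj0
        rw [hj0, mul_zero]
        rfl
      · have hjlt : j.val < n := by omega
        rw [Finset.prod_eq_zero (Finset.mem_univ (⟨j.val, hjlt⟩ : Fin n)) hj0, zero_mul]
        rfl
  rw [Finset.sum_congr rfl (fun i _ => h2 i), Finset.sum_ite_eq' Finset.univ] at h1
  simp at h1

end Pool.Agent.H659Loop
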