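import Pool.Agent.H659Loop.Laws

/-!
Loop axioms and nilpotency for the loop of order 72.
-/

set_option autoImplicit false

open FirstOrder

namespace Pool.Agent.H659Loop

section axioms

variable {I L : Type} [Fintype I] [AddCommGroup L] (ev : I → L →+ A)

theorem e_ext {u v : E I L} (h1 : u.1.1 = v.1.1) (h2 : ∀ i, u.1.2 i = v.1.2 i)
    (h3 : u.2 = v.2) : u = v :=
  Prod.ext (Prod.ext h1 (funext h2)) h3

theorem mul_ld (x y : E I L) : (opE ev).mul x ((opE ev).ld x y) = y := by
  apply e_ext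
  · simp [opE, opX]
  · intro i
    simp only [opE, opX]
    ring
  · simp only [opE, opX, coc, pr, opB, map_sub, Finset.sum_neg_distrib]
    abel

theorem ld_mul (x y : E I L) : (opE ev).ld x ((opE ev).mul x y) = y := by
  apply e_ext
  · simp [opE, opX]
  · intro i
    simp only [opE, opX, map_add, add_sub_cancel_left]
    ring
  · have key : ∀ i, (opB.ld (pr ev i x.1) (pr ev i ((opX ev).mul x.1 y.1))).2 = y.1.2 i := by
      intro i
      simp only [opB, opX, pr, map_add, add_sub_cancel_left]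
      ring
    change (x.2 + y.2 + ∑ i, coc 0 (pr ev i x.1) (pr ev i y.1)) - x.2 +
      ∑ i, coc 1 (pr ev i x.1) (pr ev i ((opX ev).mul x.1 y.1)) = y.2
    have h1 : ∀ i, coc 1 (pr ev i x.1) (pr ev i ((opX ev).mul x.1 y.1)) =
        - coc 0 (pr ev i x.1) (pr ev i y.1) := by
      intro i
      simp only [coc, key]
      rfl
    rw [Finset.sum_congr rfl (fun i _ => h1 i), Finset.sum_neg_distrib]
    abel

theorem rd_mul (y x : E I L) : (opE ev).mul ((opE ev).rd y x) x = y := by
  apply e_ext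
  · simp [opE, opX]
  · intro i
    simp only [opE, opX]
    ring
  · simp only [opE, opX, coc, pr, opB, map_sub, Finset.sum_neg_distrib]
    abel

theorem mul_rd (y x : E I L) : (opE ev).rd ((opE ev).mul y x) x = y := by
  apply e_ext
  · simp [opE, opX]
  · intro i
    simp only [opE, opX, map_add, add_sub_cancel_right]
    ring
  · have key : ∀ i, (opB.rd (pr ev i ((opX ev).mul y.1 x.1)) (pr ev i x.1)).2 = y.1.2 i := by
      intro i
      simp only [opB, opX, pr, map_add, add_sub_cancel_right]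
      ring
    change (y.2 + x.2 + ∑ i, coc 0 (pr ev i y.1) (pr ev i x.1)) - x.2 +
      ∑ i, coc 2 (pr ev i ((opX ev).mul y.1 x.1)) (pr ev i x.1) = y.2
    have h1 : ∀ i, coc 2 (pr ev i ((opX ev).mul y.1 x.1)) (pr ev i x.1) =
        - coc 0 (pr ev i y.1) (pr ev i x.1) := by
      intro i
      simp only [coc, key]
      rfl
    rw [Finset.sum_congr rfl (fun i _ => h1 i), Finset.sum_neg_distrib]
    abel

theorem e_mul (x : E I L) : (opE ev).mul (opE ev).e x = x := by
  apply e_ext
  · simp [opE, opX]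
  · intro i
    simp [opE, opX, f_zero_left]
  · simp [opE, coc, pr, h_zero_left]

theorem mul_e (x : E I L) : (opE ev).mul x (opE ev).e = x := by
  apply e_ext
  · simp [opE, opX]
  · intro i
    simp [opE, opX, f_zero_right]
  · simp [opE, coc, pr, h_zero_right]

end axioms

/-! ### Nilpotency -/

/-- the centre modulo a set -/
def cmod (S : Set Q) : Set Q :=
  {a : Q | ∀ x y : Q,
    (∃ z ∈ S, opQ.mul a x = opQ.mul (opQ.mul x a) z) ∧
    (∃ z ∈ S, opQ.mul (opQ.mul a x) y = opQ.mul (opQ.mul a (opQ.mul x y)) z) ∧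
    (∃ z ∈ S, opQ.mul (opQ.mul x a) y = opQ.mul (opQ.mul x (opQ.mul a y)) z) ∧
    (∃ z ∈ S, opQ.mul (opQ.mul x y) a = opQ.mul (opQ.mul x (opQ.mul y a)) z)}

/-- the upper central series -/
def ZZ : ℕ → Set Q
  | 0 => {opQ.e}
  | k + 1 => cmod (ZZ k)

theorem exists_of (S : Set Q) (u v : Q) (h : opQ.ld v u ∈ S) :
    ∃ z ∈ S, u = opQ.mul v z :=
  ⟨_, h, (mul_ld evQ v u).symm⟩

theorem Z1 (c : C) : (((0, 0), c) : Q) ∈ ZZ 1 := by
  have key : ∀ u v : Q, u = v → ∃ z ∈ ZZ 0, u = opQ.mul v z := by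
    intro u v h
    exact ⟨opQ.e, rfl, by rw [h]; exact (mul_e evQ v).symm⟩
  have hz : ∀ (x : Q), opQ.mul ((0, 0), c) x = (x.1, c + x.2) := by
    intro x
    apply e_ext
    · simp [opQ, opE, opX]
    · intro i
      simp [opQ, opE, opX, f_zero_left]
    · simp [opQ, opE, coc, pr, h_zero_left]
  have hz' : ∀ (x : Q), opQ.mul x ((0, 0), c) = (x.1, x.2 + c) := by
    intro x
    apply e_ext
    · simp [opQ, opE, opX]
    · intro i
      simp [opQ, opE, opX, f_zero_right]
    · simp [opQ, opE, coc, pr, h_zero_right]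
  intro x y
  refine ⟨key _ _ ?_, key _ _ ?_, key _ _ ?_, key _ _ ?_⟩
  · rw [hz, hz', add_comm]
  · rw [hz, hz]
    apply e_ext
    · rfl
    · intro i; rfl
    · change c + x.2 + y.2 + _ = c + (x.2 + y.2 + _)
      rw [add_assoc, add_assoc, add_assoc]
  · rw [hz, hz']
    apply e_ext
    · rfl
    · intro i; rfl
    · change x.2 + c + y.2 + _ = x.2 + (c + y.2) + _
      rw [add_assoc x.2 c y.2]
  · rw [hz', hz']
    apply e_ext
    · rfl
    · intro i; rfl
    · change x.2 + y.2 + _ + c = x.2 + (y.2 + c) + _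
      have : ∀ a b s c : C, a + b + s + c = a + (b + c) + s := by decide
      exact this _ _ _ _

/-- elements with the same image modulo the centre -/
theorem ld_same (u v : Q) (h : u.1 = v.1) : ∃ c : C, opQ.ld v u = ((0, 0), c) := by
  refine ⟨(opQ.ld v u).2, ?_⟩
  apply e_ext
  · simp [opQ, opE, opX, h]
  · intro i
    simp [opQ, opE, opX, h, f_zero_right]
  · rfl

theorem Z2 (k : Fin 2 → K) (c : C) : (((0, k), c) : Q) ∈ ZZ 2 := by
  have key : ∀ u v : Q, u.1 = v.1 → ∃ z ∈ ZZ 1, u = opQ.mul v z := by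
    intro u v h
    obtain ⟨c, hc⟩ := ld_same u v h
    exact exists_of _ _ _ (by rw [hc]; exact Z1 c)
  have hX : ∀ x y : Q, (opQ.mul x y).1 = (opX evQ).mul x.1 y.1 := fun _ _ => rfl
  intro x y
  refine ⟨key _ _ ?_, key _ _ ?_, key _ _ ?_, key _ _ ?_⟩
  all_goals
    simp only [hX]
    apply Prod.ext
    · simp [opX, add_comm, add_left_comm]
    · funext i
      simp only [opX, map_zero, f_zero_left, f_zero_right, zero_add, add_zero, map_add]
      ring

/-- elements with the same top -/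
theorem ld_top (u v : Q) (h : u.1.1 = v.1.1) :
    ∃ (k : Fin 2 → K) (c : C), opQ.ld v u = ((0, k), c) := by
  refine ⟨(opQ.ld v u).1.2, (opQ.ld v u).2, ?_⟩
  apply e_ext
  · simp [opQ, opE, opX, h]
  · intro i; rfl
  · rfl

theorem Z3 : ZZ 3 = Set.univ := by
  have key : ∀ u v : Q, u.1.1 = v.1.1 → ∃ z ∈ ZZ 2, u = opQ.mul v z := by
    intro u v h
    obtain ⟨k, c, hc⟩ := ld_top u v h
    exact exists_of _ _ _ (by rw [hc]; exact Z2 k c)
  have hX : ∀ x y : Q, (opQ.mul x y).1.1 = x.1.1 + y.1.1 := fun _ _ => rfl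
  apply Set.eq_univ_of_forall
  intro a x y
  refine ⟨key _ _ ?_, key _ _ ?_, key _ _ ?_, key _ _ ?_⟩
  all_goals
    simp only [hX]
    abel

end Pool.Agent.H659Loop
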