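import Pool.Agent.H659Loop.Basic

/-!
Transfer of identities in few variables, and the laws in many variables.
-/

set_option autoImplicit false

open FirstOrder

namespace Pool.Agent.H659Loop

/-! ### The loop of order 72 -/

/-- evaluations of the small loop: both copies have the same top -/
def evQ : Fin 2 → A →+ A := fun _ => AddMonoidHom.id A

/-- the loop of order 72 -/
abbrev Q : Type := E (Fin 2) A

/-- its operations -/
def opQ : Ops Q := opE evQ

/-! ### The models -/

/-- the top of the models -/
abbrev LL (d : ℕ) : Type := (Fin d → ZMod 2) × ZMod 2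

/-- the evaluations of the models -/
def evM (d : ℕ) : (Fin d → ZMod 2) → LL d →+ A := fun i =>
  { toFun := fun l => (∑ j, i j * l.1 j, l.2)
    map_zero' := by simp
    map_add' := by
      intro x y
      ext
      · simp [mul_add, Finset.sum_add_distrib]
      · simp }

/-- the models -/
abbrev M (d : ℕ) : Type := E (Fin d → ZMod 2) (LL d)

/-- their operations -/
def opM (d : ℕ) : Ops (M d) := opE (evM d)

theorem c_add_self (c : C) : c + c = 0 := by revert c; decide

theorem c_eq_of_add (c d : C) (h : c + d = 0) : c = d := by revert c d; decide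

section transfer

variable {s t : Lg.Term ℕ} (H : ∀ v : ℕ → Q, opQ.eval s v = opQ.eval t v)

include H

/-- an identity of `Q` holds in one copy -/
theorem idB (b : ℕ → B) : opB.eval s b = opB.eval t b := by
  have h1 := H (fun j => (((b j).1, fun _ => (b j).2), 0))
  have h2 : ∀ t : Lg.Term ℕ,
      pr evQ (0 : Fin 2) (opQ.eval t (fun j => (((b j).1, fun _ => (b j).2), 0))).1 =
        opB.eval t b := by
    intro t
    unfold opQ
    rw [evalE_fst, evalX_pr]
    rfl
  rw [← h2 s, ← h2 t, h1]

/-- the central part, general form -/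
theorem idC (a : ℕ → A) (k : ℕ → Fin 2 → K) (c : ℕ → C) :
    (opG C).eval s c + ∑ i, gam s (fun j => (a j, k j i)) =
      (opG C).eval t c + ∑ i, gam t (fun j => (a j, k j i)) := by
  have h1 := H (fun j => ((a j, k j), c j))
  have h2 := congrArg Prod.snd h1
  unfold opQ at h2
  rw [evalE_snd, evalE_snd] at h2
  exact h2

/-- the linear parts agree -/
theorem idLin (c : ℕ → C) : (opG C).eval s c = (opG C).eval t c := by
  have h1 := idC H (fun _ => 0) (fun _ _ => 0) c
  rw [Fin.sum_univ_two, Fin.sum_univ_two] at h1
  rw [c_add_self, c_add_self] at h1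
  simpa using h1

/-- the difference of the central term functions depends on the tops only -/
theorem idTop (a : ℕ → A) (k : ℕ → K) :
    gam s (fun j => (a j, k j)) - gam t (fun j => (a j, k j)) =
      gam s (fun j => (a j, 0)) - gam t (fun j => (a j, 0)) := by
  have h1 := idC H a (fun j => ![k j, 0]) (fun _ => 0)
  rw [Fin.sum_univ_two, Fin.sum_univ_two, idLin H] at h1
  simp only [Matrix.cons_val_zero, Matrix.cons_val_one] at h1
  have key : ∀ l x y x' y' : C, l + (x + y) = l + (x' + y') → x - x' = y - y' := by decide
  exact key _ _ _ _ _ h1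

/-- an identity of `Q` in fewer than `d` variables holds in the model -/
theorem transfer (d m : ℕ) (hmd : m < d) (hs : vb s ≤ m) (ht : vb t ≤ m) (x : ℕ → M d) :
    (opM d).eval s x = (opM d).eval t x := by
  classical
  -- one copy
  have hB : ∀ i : Fin d → ZMod 2,
      pr (evM d) i ((opX (evM d)).eval s (fun j => (x j).1)) =
        pr (evM d) i ((opX (evM d)).eval t (fun j => (x j).1)) := by
    intro i
    rw [evalX_pr, evalX_pr, idB H]
  have hX : ((opX (evM d)).eval s (fun j => (x j).1)) =
      ((opX (evM d)).eval t (fun j => (x j).1)) := by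
    apply Prod.ext
    · apply Prod.ext
      · funext j
        have h1 := congrArg (fun b : B => b.1.1) (hB (Pi.single j 1))
        simp only [pr, evM, AddMonoidHom.coe_mk, ZeroHom.coe_mk, Pi.single_apply, ite_mul,
          one_mul, zero_mul, Finset.sum_ite_eq', Finset.mem_univ, if_true] at h1
        exact h1
      · have h1 := congrArg (fun b : B => b.1.2) (hB 0)
        exact h1
    · funext i
      exact congrArg (fun b : B => b.2) (hB i)
  unfold opM
  apply Prod.ext
  · rw [evalE_fst, evalE_fst]
    exact hX
  · rw [evalE_snd, evalE_snd, idLin H]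
    congr 1
    rw [← sub_eq_zero, ← Finset.sum_sub_distrib]
    have h3 : ∀ i : Fin d → ZMod 2,
        gam s (fun j => pr (evM d) i (x j).1) - gam t (fun j => pr (evM d) i (x j).1) =
        gam s (fun j => (evM d i (x j).1.1, 0)) - gam t (fun j => (evM d i (x j).1.1, 0)) :=
      fun i => idTop H (fun j => evM d i (x j).1.1) (fun j => (x j).1.2 i)
    rw [Finset.sum_congr rfl (fun i _ => h3 i)]
    -- a vector orthogonal to all the tops
    obtain ⟨φ, hφ0, hφ⟩ : ∃ φ : Fin d → ZMod 2, φ ≠ 0 ∧
        ∀ j < m, ∑ i, φ i * (x j).1.1.1 i = 0 := by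
      let F : (Fin d → ZMod 2) → (Fin m → ZMod 2) := fun φ j => ∑ i, φ i * (x j).1.1.1 i
      have hcard : Fintype.card (Fin m → ZMod 2) < Fintype.card (Fin d → ZMod 2) := by
        simp only [Fintype.card_pi, ZMod.card, Finset.prod_const, Finset.card_univ,
          Fintype.card_fin]
        exact Nat.pow_lt_pow_right (by norm_num) hmd
      obtain ⟨u, v, huv, hF⟩ := Fintype.exists_ne_map_eq_of_card_lt F hcard
      refine ⟨u - v, sub_ne_zero.mpr huv, ?_⟩
      intro j hj
      have h1 := congrFun hF ⟨j, hj⟩
      simp only [F] at h1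
      simp only [Pi.sub_apply, sub_mul, Finset.sum_sub_distrib]
      rw [h1, sub_self]
    have hev : ∀ (i : Fin d → ZMod 2) (j : ℕ), j < m →
        evM d (i + φ) (x j).1.1 = evM d i (x j).1.1 := by
      intro i j hj
      apply Prod.ext
      · simp only [evM, AddMonoidHom.coe_mk, ZeroHom.coe_mk, Pi.add_apply, add_mul,
          Finset.sum_add_distrib]
        rw [hφ j hj, add_zero]
      · rfl
    have hgs : ∀ (u : Lg.Term ℕ) (_ : vb u ≤ m) (i : Fin d → ZMod 2),
        gam u (fun j => (evM d (i + φ) (x j).1.1, 0)) =
          gam u (fun j => (evM d i (x j).1.1, 0)) := by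
      intro u hu i
      unfold gam
      rw [eval_congr opB' (fun j => (((evM d (i + φ) (x j).1.1, 0) : B), 0))
        (fun j => (((evM d i (x j).1.1, 0) : B), 0)) u (fun j hj => by
          simp only [hev i j (lt_of_lt_of_le hj hu)])]
    refine Finset.sum_involution (fun i _ => i + φ) ?_ ?_ ?_ ?_
    · intro i _
      rw [hgs s hs, hgs t ht]
      exact c_add_self _
    · intro i _ _ h4
      exact hφ0 (by simpa using h4)
    · intro i _
      exact Finset.mem_univ _
    · intro i _
      rw [add_assoc]
      have : φ + φ = 0 := by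
        funext j
        exact c_add_self _
      rw [this, add_zero]

end transfer

/-! ### The laws -/

/-- multiplication of terms -/
def tm (u v : Lg.Term ℕ) : Lg.Term ℕ :=
  Language.Term.func (l := 2) (show Lg.Functions 2 from (0 : Fin 3)) ![u, v]

/-- right division of terms -/
def tr (u v : Lg.Term ℕ) : Lg.Term ℕ :=
  Language.Term.func (l := 2) (show Lg.Functions 2 from (2 : Fin 3)) ![u, v]

theorem eval_tm {R : Type} (o : Ops R) (u v : Lg.Term ℕ) (x : ℕ → R) :
    o.eval (tm u v) x = o.mul (o.eval u x) (o.eval v x) := rfl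

theorem eval_tr {R : Type} (o : Ops R) (u v : Lg.Term ℕ) (x : ℕ → R) :
    o.eval (tr u v) x = o.rd (o.eval u x) (o.eval v x) := rfl

/-- the terms `w_n(y)` -/
def ww : ℕ → Lg.Term ℕ → Lg.Term ℕ
  | 0, y => tr (tm y (Language.Term.var 0)) (tm (Language.Term.var 0) y)
  | n + 1, y => tr (tm (ww n (Language.Term.var (n + 1))) (ww n y))
      (ww n (tm (Language.Term.var (n + 1)) y))

/-- left hand side of the law -/
def lhs (n : ℕ) : Lg.Term ℕ :=
  tm (tm (ww n (Language.Term.var (n + 1))) (ww n (Language.Term.var (n + 1))))
    (ww n (Language.Term.var (n + 1)))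

/-- right hand side of the law -/
def rhs (n : ℕ) : Lg.Term ℕ :=
  tm (ww n (Language.Term.var (n + 1)))
    (tm (ww n (Language.Term.var (n + 1))) (ww n (Language.Term.var (n + 1))))

/-- the function measuring the failure of `(ww)w = w(ww)` -/
def psi (k : K) : C := if k = 0 then 0 else 1

section laws

variable {I L : Type} [Fintype I] [AddCommGroup L] (ev : I → L →+ A)

/-- for an element with trivial top the law `(ww)w = w(ww)` is a sum -/
theorem cube (w : E I L) (hw : w.1.1 = 0) :
    (opE ev).mul ((opE ev).mul w w) w = (opE ev).mul w ((opE ev).mul w w) ↔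
      ∑ i, psi (w.1.2 i) = 0 := by
  obtain ⟨⟨l, k⟩, c⟩ := w
  have hl : l = 0 := hw
  subst hl
  have e1 : (opE ev).mul ((opE ev).mul ((0, k), c) ((0, k), c)) ((0, k), c) =
      ((0, fun i => k i + k i + k i), c + c + ∑ i, h (k i) (k i) + c + ∑ i, h (k i + k i) (k i)) := by
    simp [opE, opX, coc, pr, f_zero_left]
  have e2 : (opE ev).mul ((0, k), c) ((opE ev).mul ((0, k), c) ((0, k), c)) =
      ((0, fun i => k i + (k i + k i)), c + (c + c + ∑ i, h (k i) (k i)) +
        ∑ i, h (k i) (k i + k i)) := by
    simp [opE, opX, coc, pr, f_zero_left]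
  rw [e1, e2]
  constructor
  · intro h1
    have h2 := congrArg Prod.snd h1
    simp only at h2
    have h3 : ∑ i, h (k i + k i) (k i) = ∑ i, h (k i) (k i + k i) := by
      have key : ∀ c a b d : C, c + c + a + c + b = c + (c + c + a) + d → b = d := by decide
      exact key _ _ _ _ h2
    have h4 : ∀ k : K, psi k = h (k + k) k - h k (k + k) := by decide
    simp only [h4, Finset.sum_sub_distrib, h3, sub_self]
  · intro h1
    have h4 : ∀ k : K, psi k = h (k + k) k - h k (k + k) := by decide
    simp only [h4, Finset.sum_sub_distrib, sub_eq_zero] at h1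
    rw [h1]
    apply Prod.ext
    · apply Prod.ext
      · rfl
      · funext i
        exact add_assoc _ _ _
    · simp only
      abel

end laws

end Pool.Agent.H659Loop
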